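import Mathlib

/-!
# Character sums over a finite field
-/

set_option autoImplicit false

open Finset

namespace Pool.Agent.L5helper45.WH

variable {F : Type*} [Field F] [Fintype F] {ψ : AddChar F ℂ}

theorem conj_char (ψ : AddChar F ℂ) (x : F) : (starRingEnd ℂ) (ψ x) = ψ (-x) :=
  (AddChar.map_neg_eq_conj ψ x).symm

/-- a quadratic character sum has modulus `√q` -/
theorem quad_sum [DecidableEq F] (hψ : ψ.IsPrimitive) (h2 : (2 : F) ≠ 0) {A : F} (hA : A ≠ 0) (B C : F) :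
    ‖∑ k, ψ (A * k ^ 2 + B * k + C)‖ ^ 2 = Fintype.card F := by
  have h1 : (((‖∑ k, ψ (A * k ^ 2 + B * k + C)‖ ^ 2 : ℝ)) : ℂ) = (Fintype.card F : ℂ) := by
    have e0 : (((‖∑ k, ψ (A * k ^ 2 + B * k + C)‖ ^ 2 : ℝ)) : ℂ) =
        (∑ k, ψ (A * k ^ 2 + B * k + C)) * (starRingEnd ℂ) (∑ k, ψ (A * k ^ 2 + B * k + C)) := by
      rw [RCLike.mul_conj]
      norm_cast
    rw [e0, map_sum, Finset.sum_mul_sum]
    have e1 : ∀ k, ∑ l, ψ (A * k ^ 2 + B * k + C) * (starRingEnd ℂ) (ψ (A * l ^ 2 + B * l + C)) =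
        ∑ h, ψ (A * k ^ 2 + B * k + C) *
          (starRingEnd ℂ) (ψ (A * (k - h) ^ 2 + B * (k - h) + C)) := by
      intro k
      exact (Equiv.sum_comp (Equiv.subLeft k)
        (fun l => ψ (A * k ^ 2 + B * k + C) * (starRingEnd ℂ) (ψ (A * l ^ 2 + B * l + C)))).symm
    simp only [e1]
    rw [Finset.sum_comm]
    have e2 : ∀ h k, ψ (A * k ^ 2 + B * k + C) *
        (starRingEnd ℂ) (ψ (A * (k - h) ^ 2 + B * (k - h) + C)) =
        ψ (B * h - A * h ^ 2) * ψ (k * (2 * A * h)) := by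
      intro h k
      rw [conj_char, ← AddChar.map_add_eq_mul, ← AddChar.map_add_eq_mul]
      congr 1
      ring
    simp only [e2, ← Finset.mul_sum, AddChar.sum_mulShift _ hψ]
    rw [Finset.sum_eq_single 0]
    · simp
    · intro h _ hh
      have : 2 * A * h ≠ 0 := mul_ne_zero (mul_ne_zero h2 hA) hh
      rw [if_neg this]
      simp
    · intro h
      exact absurd (Finset.mem_univ _) h
  exact_mod_cast h1

/-- Parseval -/
theorem parseval [DecidableEq F] (hψ : ψ.IsPrimitive) (f : F → ℂ) :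
    ∑ b, ‖∑ k, ψ (b * k) * f k‖ ^ 2 = Fintype.card F * ∑ k, ‖f k‖ ^ 2 := by
  have h1 : ((∑ b, ‖∑ k, ψ (b * k) * f k‖ ^ 2 : ℝ) : ℂ) =
      ((Fintype.card F * ∑ k, ‖f k‖ ^ 2 : ℝ) : ℂ) := by
    push_cast
    have e0 : ∀ z : ℂ, ((‖z‖ : ℝ) : ℂ) ^ 2 = z * (starRingEnd ℂ) z := by
      intro z
      rw [RCLike.mul_conj]
      norm_cast
    simp only [e0, map_sum, Finset.sum_mul_sum]
    rw [Finset.sum_comm]
    rw [Finset.mul_sum]
    refine Finset.sum_congr rfl fun k _ => ?_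
    rw [Finset.sum_comm]
    have e1 : ∀ l, ∑ b, ψ (b * k) * f k * (starRingEnd ℂ) (ψ (b * l) * f l) =
        (f k * (starRingEnd ℂ) (f l)) * (if k - l = 0 then (Fintype.card F : ℂ) else 0) := by
      intro l
      have e2 : (if k - l = 0 then (Fintype.card F : ℂ) else 0) =
          ∑ b, ψ (b * (k - l)) := by
        rw [AddChar.sum_mulShift _ hψ]
        split_ifs <;> simp
      rw [e2, Finset.mul_sum]
      refine Finset.sum_congr rfl fun b _ => ?_
      rw [map_mul (starRingEnd ℂ), conj_char, mul_sub, sub_eq_add_neg, AddChar.map_add_eq_mul]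
      ring
    simp only [e1]
    rw [Finset.sum_eq_single k]
    · simp
      ring
    · intro l _ hl
      rw [if_neg (sub_ne_zero.2 (Ne.symm hl))]
      simp
    · intro h
      exact absurd (Finset.mem_univ _) h
  exact_mod_cast h1

end Pool.Agent.L5helper45.WH
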