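import Mathlib
import Pool.Agent.L5helper45.WH.Char

/-!
# The orbit of an almost flat vector under the Weyl-Heisenberg group of a finite field
-/

set_option autoImplicit false

open Finset

namespace Pool.Agent.L5helper45.WH

variable {F : Type*} [Field F] [Fintype F] [DecidableEq F] {ψ : AddChar F ℂ}

/-- the fiducial vector -/
noncomputable def fid (ψ : AddChar F ℂ) (g β : ℝ) (k : F) : ℂ :=
  (g : ℂ) * ψ (k ^ 3) + if k = 0 then (β : ℂ) else 0

/-- the ambiguity function -/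
noncomputable def amb (ψ : AddChar F ℂ) (x : F → ℂ) (a b : F) : ℂ :=
  ∑ k, (starRingEnd ℂ) (x k) * (ψ (b * k) * x (k - a))

/-- the orbit -/
noncomputable def orb (ψ : AddChar F ℂ) (x : F → ℂ) (i : F × F) : EuclideanSpace ℂ F :=
  WithLp.toLp 2 fun k => ψ (i.2 * k) * x (k - i.1)

theorem inner_eq (u v : EuclideanSpace ℂ F) :
    inner ℂ u v = ∑ a, (starRingEnd ℂ) (u a) * v a := by
  rw [EuclideanSpace.inner_eq_star_dotProduct]
  simp [dotProduct, mul_comm]

theorem inner_orb (x : F → ℂ) (i j : F × F) :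
    ‖inner ℂ (orb ψ x i) (orb ψ x j)‖ = ‖amb ψ x (j.1 - i.1) (j.2 - i.2)‖ := by
  have h : inner ℂ (orb ψ x i) (orb ψ x j) =
      ψ ((j.2 - i.2) * i.1) * amb ψ x (j.1 - i.1) (j.2 - i.2) := by
    rw [inner_eq]
    unfold orb amb
    rw [Finset.mul_sum]
    rw [← Equiv.sum_comp (Equiv.addRight i.1)]
    refine Finset.sum_congr rfl fun k _ => ?_
    simp only [Equiv.coe_addRight]
    rw [map_mul (starRingEnd ℂ), conj_char]
    have e1 : k + i.1 - i.1 = k := by ring
    have e2 : k + i.1 - j.1 = k - (j.1 - i.1) := by ring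
    have e3 : ψ ((j.2 - i.2) * i.1) * ψ ((j.2 - i.2) * k) =
        ψ (-(i.2 * (k + i.1))) * ψ (j.2 * (k + i.1)) := by
      rw [← AddChar.map_add_eq_mul, ← AddChar.map_add_eq_mul]
      congr 1
      ring
    rw [e1, e2]
    calc ψ (-(i.2 * (k + i.1))) * (starRingEnd ℂ) (x k) *
          (ψ (j.2 * (k + i.1)) * x (k - (j.1 - i.1)))
        = (ψ (-(i.2 * (k + i.1))) * ψ (j.2 * (k + i.1))) *
          ((starRingEnd ℂ) (x k) * x (k - (j.1 - i.1))) := by ring
      _ = _ := by rw [← e3]; ring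
  rw [h, norm_mul, AddChar.norm_apply, one_mul]

theorem norm_sq_eq (v : EuclideanSpace ℂ F) : ‖v‖ ^ 2 = ∑ k, ‖v k‖ ^ 2 :=
  EuclideanSpace.norm_sq_eq v

theorem norm_orb (x : F → ℂ) (i : F × F) : ‖orb ψ x i‖ ^ 2 = ∑ k, ‖x k‖ ^ 2 := by
  rw [norm_sq_eq]
  unfold orb
  rw [← Equiv.sum_comp (Equiv.subRight i.1) (fun k => ‖x k‖ ^ 2)]
  refine Finset.sum_congr rfl fun k _ => ?_
  simp only [norm_mul, AddChar.norm_apply, one_mul, Equiv.subRight_apply]

/-- the orbit is a tight frame -/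
theorem tight (hψ : ψ.IsPrimitive) (x : F → ℂ) (w : EuclideanSpace ℂ F) :
    ∑ i, ‖inner ℂ (orb ψ x i) w‖ ^ 2 =
      Fintype.card F * (∑ k, ‖x k‖ ^ 2) * ‖w‖ ^ 2 := by
  rw [Fintype.sum_prod_type]
  have h1 : ∀ a, ∑ b, ‖inner ℂ (orb ψ x (a, b)) w‖ ^ 2 =
      Fintype.card F * ∑ k, ‖x (k - a)‖ ^ 2 * ‖w k‖ ^ 2 := by
    intro a
    have h2 := parseval hψ (fun k => (starRingEnd ℂ) (x (k - a)) * w k)
    rw [← Equiv.sum_comp (Equiv.neg F)] at h2
    have h3 : ∀ b, inner ℂ (orb ψ x (a, b)) w =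
        ∑ k, ψ (-b * k) * ((starRingEnd ℂ) (x (k - a)) * w k) := by
      intro b
      rw [inner_eq]
      refine Finset.sum_congr rfl fun k _ => ?_
      unfold orb
      rw [map_mul (starRingEnd ℂ), conj_char]
      ring_nf
    simp only [h3]
    simp only [Equiv.neg_apply] at h2
    rw [h2]
    simp only [norm_mul, RCLike.norm_conj, mul_pow]
  simp only [h1, ← Finset.mul_sum]
  rw [Finset.sum_comm, mul_assoc]
  congr 1
  rw [norm_sq_eq, Finset.mul_sum]
  refine Finset.sum_congr rfl fun k _ => ?_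
  rw [← Finset.sum_mul]
  congr 1
  exact Equiv.sum_comp (Equiv.subLeft k) (fun k => ‖x k‖ ^ 2)

/-- the second moment of the orbit in terms of the ambiguity function -/
theorem second (hψ : ψ.IsPrimitive) (x : F → ℂ) (B : Matrix F F ℂ) :
    ∑ i, ‖∑ k, ∑ l, (starRingEnd ℂ) (orb ψ x i k) * B k l * orb ψ x i l‖ ^ 2 =
      ∑ m, ∑ b, ‖amb ψ x (-m) b‖ ^ 2 * ‖∑ k, ψ (-b * k) * B k (k + m)‖ ^ 2 := by
  rw [Fintype.sum_prod_type]
  -- for fixed `a`
  have h1 : ∀ a, ∑ b, ‖∑ k, ∑ l, (starRingEnd ℂ) (orb ψ x (a, b) k) * B k l *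
      orb ψ x (a, b) l‖ ^ 2 =
      Fintype.card F * ∑ m, ‖∑ k, (starRingEnd ℂ) (x (k - a)) * x (k + m - a) *
        B k (k + m)‖ ^ 2 := by
    intro a
    have h2 := parseval hψ (fun m => ∑ k, (starRingEnd ℂ) (x (k - a)) * x (k + m - a) *
        B k (k + m))
    rw [← h2]
    refine Finset.sum_congr rfl fun b _ => ?_
    congr 2
    have h3 : ∀ k, ∑ l, (starRingEnd ℂ) (orb ψ x (a, b) k) * B k l * orb ψ x (a, b) l =
        ∑ m, (starRingEnd ℂ) (orb ψ x (a, b) k) * B k (k + m) * orb ψ x (a, b) (k + m) := by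
      intro k
      exact (Equiv.sum_comp (Equiv.addLeft k)
        (fun l => (starRingEnd ℂ) (orb ψ x (a, b) k) * B k l * orb ψ x (a, b) l)).symm
    simp only [h3]
    rw [Finset.sum_comm]
    refine Finset.sum_congr rfl fun m _ => ?_
    rw [Finset.mul_sum]
    refine Finset.sum_congr rfl fun k _ => ?_
    unfold orb
    simp only
    rw [map_mul (starRingEnd ℂ), conj_char]
    have e3 : ψ (b * m) = ψ (-(b * k)) * ψ (b * (k + m)) := by
      rw [← AddChar.map_add_eq_mul]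
      congr 1
      ring
    rw [e3]
    ring
  simp only [h1, ← Finset.mul_sum]
  rw [Finset.sum_comm, Finset.mul_sum]
  refine Finset.sum_congr rfl fun m _ => ?_
  have h4 := parseval hψ (fun a => ∑ k, (starRingEnd ℂ) (x (k - a)) * x (k + m - a) *
        B k (k + m))
  rw [← h4]
  rw [← Equiv.sum_comp (Equiv.neg F) (fun b => ‖amb ψ x (-m) b‖ ^ 2 *
    ‖∑ k, ψ (-b * k) * B k (k + m)‖ ^ 2)]
  refine Finset.sum_congr rfl fun b _ => ?_
  simp only [Equiv.neg_apply, neg_neg]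
  rw [← mul_pow, ← norm_mul]
  congr 2
  unfold amb
  simp only [Finset.mul_sum]
  rw [Finset.sum_comm]
  refine Finset.sum_congr rfl fun k _ => ?_
  rw [Finset.sum_mul, ← Equiv.sum_comp (Equiv.subLeft k)]
  refine Finset.sum_congr rfl fun j _ => ?_
  simp only [Equiv.subLeft_apply]
  have e1 : k - (k - j) = j := by ring
  have e2 : k + m - (k - j) = j - -m := by ring
  have e3 : ψ (b * (k - j)) = ψ (-b * j) * ψ (b * k) := by
    rw [← AddChar.map_add_eq_mul]
    congr 1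
    ring
  rw [e1, e2, e3]
  ring

end Pool.Agent.L5helper45.WH
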