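import Mathlib
import Pool.Agent.L5helper45.WH.Fid

/-!
# The ambiguity function of the fiducial
-/

set_option autoImplicit false

open Finset

namespace Pool.Agent.L5helper45.WH

variable {F : Type*} [Field F] [Fintype F] [DecidableEq F] {ψ : AddChar F ℂ}

theorem sum_char (hψ : ψ.IsPrimitive) {b : F} (hb : b ≠ 0) : ∑ k, ψ (b * k) = 0 := by
  have := AddChar.sum_mulShift b hψ
  rw [if_neg hb] at this
  simp only [mul_comm b]
  exact_mod_cast this

/-- values on the axis -/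
theorem amb_zero (hψ : ψ.IsPrimitive) (g β : ℝ) {b : F} (hb : b ≠ 0) :
    amb ψ (fid ψ g β) 0 b = ((2 * g * β + β ^ 2 : ℝ) : ℂ) := by
  unfold amb
  have h : ∀ k, (starRingEnd ℂ) (fid ψ g β k) * (ψ (b * k) * fid ψ g β (k - 0)) =
      (g : ℂ) ^ 2 * ψ (b * k) + if k = 0 then ((2 * g * β + β ^ 2 : ℝ) : ℂ) else 0 := by
    intro k
    rw [sub_zero]
    unfold fid
    have e0 : ψ (-k ^ 3) * ψ (k ^ 3) = 1 := by
      rw [← AddChar.map_add_eq_mul]
      simp
    by_cases hk : k = 0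
    · subst hk
      simp
      ring
    · simp only [if_neg hk, add_zero]
      rw [map_mul (starRingEnd ℂ), conj_char, Complex.conj_ofReal]
      calc (g : ℂ) * ψ (-k ^ 3) * (ψ (b * k) * ((g : ℂ) * ψ (k ^ 3)))
          = (g : ℂ) ^ 2 * ψ (b * k) * (ψ (-k ^ 3) * ψ (k ^ 3)) := by ring
        _ = _ := by rw [e0, mul_one]
  simp only [h]
  rw [Finset.sum_add_distrib, ← Finset.mul_sum, sum_char hψ hb]
  simp

/-- the norm of the fiducial -/
theorem norm_fid (g β : ℝ) :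
    ∑ k, ‖fid ψ g β k‖ ^ 2 = Fintype.card F * g ^ 2 + (2 * g * β + β ^ 2) := by
  have h : ∀ k, ‖fid ψ g β k‖ ^ 2 = g ^ 2 + if k = 0 then 2 * g * β + β ^ 2 else 0 := by
    intro k
    unfold fid
    by_cases hk : k = 0
    · subst hk
      simp only [if_true]
      have : (g : ℂ) * ψ (0 ^ 3) + (β : ℂ) = ((g + β : ℝ) : ℂ) := by
        simp
      rw [this, Complex.norm_real, Real.norm_eq_abs, sq_abs]
      ring
    · simp only [if_neg hk, add_zero]
      rw [norm_mul, AddChar.norm_apply, mul_one, Complex.norm_real, Real.norm_eq_abs, sq_abs]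
  simp only [h]
  rw [Finset.sum_add_distrib]
  simp

/-- values off the axis -/
theorem amb_off (hψ : ψ.IsPrimitive) (h2 : (2 : F) ≠ 0) (h3 : (3 : F) ≠ 0) {g β : ℝ}
    (hg : 0 ≤ g) (hβ : 0 ≤ β) {a : F} (ha : a ≠ 0) (b : F) :
    |‖amb ψ (fid ψ g β) a b‖ - g ^ 2 * Real.sqrt (Fintype.card F)| ≤ 2 * g * β := by
  have hsplit : amb ψ (fid ψ g β) a b =
      (g : ℂ) ^ 2 * ∑ k, ψ (-3 * a * k ^ 2 + (3 * a ^ 2 + b) * k + (-a ^ 3)) +
      ((g : ℂ) * β * ψ (b * a - a ^ 3) + (g : ℂ) * β * ψ (-a ^ 3)) := by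
    unfold amb
    have h : ∀ k, (starRingEnd ℂ) (fid ψ g β k) * (ψ (b * k) * fid ψ g β (k - a)) =
        (g : ℂ) ^ 2 * ψ (-3 * a * k ^ 2 + (3 * a ^ 2 + b) * k + (-a ^ 3)) +
        ((if k = a then (g : ℂ) * β * ψ (b * a - a ^ 3) else 0) +
          (if k = 0 then (g : ℂ) * β * ψ (-a ^ 3) else 0)) := by
      intro k
      unfold fid
      have e0 : ψ (-3 * a * k ^ 2 + (3 * a ^ 2 + b) * k + (-a ^ 3)) =
          ψ (-k ^ 3) * ψ (b * k) * ψ ((k - a) ^ 3) := by
        rw [← AddChar.map_add_eq_mul, ← AddChar.map_add_eq_mul]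
        congr 1
        ring
      rw [e0]
      rw [map_add, map_mul (starRingEnd ℂ), conj_char, Complex.conj_ofReal]
      by_cases hk : k = 0
      · subst hk
        have h0a : ¬ ((0 : F) = a) := fun h => ha h.symm
        have h0a' : ¬ ((0 : F) - a = 0) := by
          rw [zero_sub, neg_eq_zero]
          exact ha
        simp only [if_neg h0a, if_neg h0a', if_true]
        have e1 : ((0 : F) - a) ^ 3 = -a ^ 3 := by ring
        rw [e1]
        simp
        ring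
      · by_cases hka : k = a
        · subst hka
          simp only [if_neg hk, if_true, sub_self]
          have e1 : ψ (b * k - k ^ 3) = ψ (-k ^ 3) * ψ (b * k) := by
            rw [← AddChar.map_add_eq_mul]
            congr 1
            ring
          rw [e1]
          simp
          ring
        · have hka' : ¬ (k - a = 0) := sub_ne_zero.2 hka
          simp only [if_neg hk, if_neg hka, if_neg hka']
          simp
          ring
    simp only [h]
    rw [Finset.sum_add_distrib, ← Finset.mul_sum, Finset.sum_add_distrib]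
    simp
  have hq := quad_sum hψ h2 (mul_ne_zero (neg_ne_zero.2 h3) ha) (3 * a ^ 2 + b) (-a ^ 3)
  have hq' : ‖∑ k, ψ (-3 * a * k ^ 2 + (3 * a ^ 2 + b) * k + (-a ^ 3))‖ =
      Real.sqrt (Fintype.card F) := by
    rw [← hq, Real.sqrt_sq (norm_nonneg _)]
  have h1 : g ^ 2 * Real.sqrt (Fintype.card F) =
      ‖(g : ℂ) ^ 2 * ∑ k, ψ (-3 * a * k ^ 2 + (3 * a ^ 2 + b) * k + (-a ^ 3))‖ := by
    rw [norm_mul, hq', norm_pow, Complex.norm_real, Real.norm_eq_abs, sq_abs]
  rw [h1, hsplit]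
  refine (abs_norm_sub_norm_le _ _).trans ?_
  rw [add_sub_cancel_left]
  refine (norm_add_le _ _).trans ?_
  have hgβ : ‖(g : ℂ) * β‖ = g * β := by
    rw [norm_mul, Complex.norm_real, Complex.norm_real, Real.norm_eq_abs, Real.norm_eq_abs,
      abs_of_nonneg hg, abs_of_nonneg hβ]
  rw [norm_mul, norm_mul _ (ψ (-a ^ 3)), AddChar.norm_apply, AddChar.norm_apply, hgβ]
  linarith

/-- the numerical end -/
theorem num {q t α β s N : ℝ} (ht0 : 0 < t) (ht : t ≤ 16 / 25) (ht4 : (q + 1) * t ^ 4 = 1)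
    (hs : 0 < s) (hs2 : s ^ 2 = q) (hα0 : 0 ≤ α) (hα : α ^ 2 = 1 - t ^ 2) (hβ0 : 0 ≤ β)
    (hβ : β ≤ t) (hN0 : 0 ≤ N) (hN : |N - (α / s) ^ 2 * s| ≤ 2 * (α / s) * β) :
    |(q + 1) * N ^ 2 - 1| ≤ 6 * t := by
  have hα1 : α ≤ 1 := by
    have : α ^ 2 ≤ 1 ^ 2 := by rw [hα]; nlinarith
    exact le_of_sq_le_sq this (by norm_num)
  have e1 : (α / s) ^ 2 * s = (1 - t ^ 2) / s := by
    rw [div_pow, hα]
    field_simp
  have e2 : 2 * (α / s) * β ≤ 2 * t / s := by
    have h1 : α * β ≤ 1 * t := mul_le_mul hα1 hβ hβ0 (by norm_num)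
    rw [show 2 * (α / s) * β = 2 * (α * β) / s by ring]
    exact div_le_div_of_nonneg_right (by linarith) hs.le
  rw [e1] at hN
  have h1 := abs_le.1 (hN.trans e2)
  have hup : N * s ≤ 1 - t ^ 2 + 2 * t := by
    have h2 : N ≤ (1 - t ^ 2) / s + 2 * t / s := by linarith
    rw [← add_div, le_div_iff₀ hs] at h2
    exact h2
  have hlo : 1 - t ^ 2 - 2 * t ≤ N * s := by
    have h2 : (1 - t ^ 2) / s - 2 * t / s ≤ N := by linarith
    rw [← sub_div, div_le_iff₀ hs] at h2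
    exact h2
  obtain ⟨m, hm⟩ : ∃ m, m = N * s := ⟨_, rfl⟩
  rw [← hm] at hup hlo
  have hm0 : 0 ≤ m := by rw [hm]; exact mul_nonneg hN0 hs.le
  have hm2 : m ^ 2 = q * N ^ 2 := by rw [hm, mul_pow, hs2]; ring
  have hq1 : q * t ^ 4 = 1 - t ^ 4 := by linarith
  have ht4' : t ^ 4 < 1 := by
    have : t ^ 4 ≤ (16 / 25) ^ 4 := pow_le_pow_left₀ ht0.le ht 4
    linarith [this, (by norm_num : ((16 : ℝ) / 25) ^ 4 < 1)]
  have hkey : (1 - t ^ 4) * ((q + 1) * N ^ 2) = m ^ 2 := by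
    rw [← hq1, hm2]
    calc q * t ^ 4 * ((q + 1) * N ^ 2) = (q * N ^ 2) * ((q + 1) * t ^ 4) := by ring
      _ = q * N ^ 2 := by rw [ht4, mul_one]
  have hpos : 0 < 1 - t ^ 4 := by linarith
  rw [abs_le]
  constructor
  · -- lower bound
    have hl : (1 - t ^ 4) * (1 - 6 * t) ≤ m ^ 2 := by
      by_cases h : 1 - 6 * t ≤ 0
      · have := mul_nonneg hpos.le (by linarith : 0 ≤ -(1 - 6 * t))
        have := sq_nonneg m
        linarith
      · push Not at h
        have h2 : 0 ≤ 1 - t ^ 2 - 2 * t := by nlinarith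
        have h3 : (1 - t ^ 2 - 2 * t) ^ 2 ≤ m ^ 2 := pow_le_pow_left₀ h2 hlo 2
        have h4 : (1 - t ^ 4) * (1 - 6 * t) ≤ 1 * (1 - 6 * t) := by
          apply mul_le_mul_of_nonneg_right _ h.le
          have := pow_nonneg ht0.le 4
          linarith
        have h5 : 1 - 6 * t ≤ (1 - t ^ 2 - 2 * t) ^ 2 := by
          have h6 : (1 - t ^ 2 - 2 * t) ^ 2 = 1 - 4 * t + 2 * t ^ 2 + 4 * t ^ 3 + t ^ 4 := by ring
          have := pow_nonneg ht0.le 4
          have := pow_nonneg ht0.le 3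
          have := pow_nonneg ht0.le 2
          linarith
        linarith
    rw [← hkey] at hl
    have := le_of_mul_le_mul_left hl hpos
    linarith
  · -- upper bound
    have hu : m ^ 2 ≤ (1 - t ^ 4) * (1 + 6 * t) := by
      have h3 : m ^ 2 ≤ (1 - t ^ 2 + 2 * t) ^ 2 := pow_le_pow_left₀ hm0 hup 2
      have h6 : (1 - t ^ 4) * (1 + 6 * t) - (1 - t ^ 2 + 2 * t) ^ 2 =
          2 * t * (1 - t + 2 * t ^ 2 - t ^ 3 - 3 * t ^ 4) := by ring
      have h7 : 0 ≤ 1 - t + 2 * t ^ 2 - t ^ 3 - 3 * t ^ 4 := by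
        have a1 : t ^ 3 ≤ 16 / 25 * t ^ 2 := by
          have := mul_le_mul_of_nonneg_right ht (sq_nonneg t)
          linarith [this, (by ring : t * t ^ 2 = t ^ 3)]
        have a2 : t ^ 4 ≤ (16 / 25) ^ 2 * t ^ 2 := by
          have h8 : t ^ 2 ≤ (16 / 25) ^ 2 := pow_le_pow_left₀ ht0.le ht 2
          have := mul_le_mul_of_nonneg_right h8 (sq_nonneg t)
          linarith [this, (by ring : t ^ 2 * t ^ 2 = t ^ 4)]
        nlinarith [sq_nonneg t]
      have h8 := mul_nonneg (by linarith : 0 ≤ 2 * t) h7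
      linarith
    rw [← hkey] at hu
    have := le_of_mul_le_mul_left hu hpos
    linarith

end Pool.Agent.L5helper45.WH
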