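import Mathlib
import Pool.Agent.L5helper45.WH.Amb

/-!
# Almost equiangular orbits of the Weyl-Heisenberg group of a finite field
-/

set_option autoImplicit false

open Finset

namespace Pool.Agent.L5helper45.WH

variable {F : Type*} [Field F] [Fintype F] [DecidableEq F] {ψ : AddChar F ℂ}

theorem five_le (F : Type*) [Field F] [Fintype F] (h2 : (2 : F) ≠ 0) (h3 : (3 : F) ≠ 0) :
    5 ≤ Fintype.card F := by
  obtain ⟨p, n, hp, hpn⟩ := FiniteField.card' F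
  obtain ⟨p', hp'⟩ := CharP.exists F
  have hfp : Fact p'.Prime := ⟨CharP.char_is_prime F p'⟩
  obtain ⟨n', hp1, hcard⟩ := FiniteField.card F p'
  have h2' : p' ≠ 2 := by
    rintro rfl
    exact h2 (by exact_mod_cast CharP.cast_eq_zero F 2)
  have h3' : p' ≠ 3 := by
    rintro rfl
    exact h3 (by exact_mod_cast CharP.cast_eq_zero F 3)
  have h4' : p' ≠ 4 := by
    rintro rfl
    exact absurd hp1 (by norm_num)
  have h5 : 5 ≤ p' := by
    have := hp1.two_le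
    omega
  rw [hcard]
  calc 5 ≤ p' := h5
    _ = p' ^ 1 := (pow_one _).symm
    _ ≤ p' ^ (n' : ℕ) := Nat.pow_le_pow_right (by omega) n'.pos

theorem sum_sq_decomp (B : Matrix F F ℂ) (hψ : ψ.IsPrimitive) :
    ∑ m, ∑ b, ‖∑ k, ψ (-b * k) * B k (k + m)‖ ^ 2 =
      Fintype.card F * ∑ k, ∑ l, ‖B k l‖ ^ 2 := by
  have h1 : ∀ m, ∑ b, ‖∑ k, ψ (-b * k) * B k (k + m)‖ ^ 2 =
      Fintype.card F * ∑ k, ‖B k (k + m)‖ ^ 2 := by
    intro m
    have := parseval hψ (fun k => B k (k + m))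
    rw [← Equiv.sum_comp (Equiv.neg F)] at this
    simpa only [Equiv.neg_apply] using this
  simp only [h1, ← Finset.mul_sum]
  rw [Finset.sum_comm]
  congr 1
  refine Finset.sum_congr rfl fun k _ => ?_
  exact Equiv.sum_comp (Equiv.addLeft k) (fun l => ‖B k l‖ ^ 2)

theorem main (h2 : (2 : F) ≠ 0) (h3 : (3 : F) ≠ 0) (hψ : ψ.IsPrimitive) :
    ∃ (α β : ℝ) (v : F × F → EuclideanSpace ℂ F), 0 < α ∧ 0 < β ∧
      (∀ a b k, v (a, b) k = ψ (b * k) * ((α / Real.sqrt (Fintype.card F) : ℝ) * ψ ((k - a) ^ 3) +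
        if k = a then (β : ℂ) else 0)) ∧
      (∀ i, ‖v i‖ = 1) ∧
      (∀ w, ∑ i, ‖inner ℂ (v i) w‖ ^ 2 = (Fintype.card F : ℝ) * ‖w‖ ^ 2) ∧
      (∀ i j, i ≠ j → i.1 = j.1 →
        ‖inner ℂ (v i) (v j)‖ = 1 / Real.sqrt ((Fintype.card F : ℝ) + 1)) ∧
      (∀ i j, i ≠ j → |((Fintype.card F : ℝ) + 1) * ‖inner ℂ (v i) (v j)‖ ^ 2 - 1| ≤
        6 / ((Fintype.card F : ℝ) + 1) ^ (1 / 4 : ℝ)) ∧
      (∀ B : Matrix F F ℂ, B.trace = 0 →
        |((Fintype.card F : ℝ) + 1) / Fintype.card F *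
            ∑ i, ‖∑ k, ∑ l, (starRingEnd ℂ) (v i k) * B k l * v i l‖ ^ 2 -
          ∑ k, ∑ l, ‖B k l‖ ^ 2| ≤
        6 / ((Fintype.card F : ℝ) + 1) ^ (1 / 4 : ℝ) * ∑ k, ∑ l, ‖B k l‖ ^ 2) := by
  obtain ⟨q, hq⟩ : ∃ q : ℝ, q = (Fintype.card F : ℝ) := ⟨_, rfl⟩
  have hq5 : 5 ≤ q := by
    rw [hq]
    exact_mod_cast five_le F h2 h3
  have hq0 : 0 < q := by linarith
  obtain ⟨s, hs⟩ : ∃ s : ℝ, s = Real.sqrt q := ⟨_, rfl⟩
  have hs0 : 0 < s := by rw [hs]; exact Real.sqrt_pos.2 hq0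
  have hs2 : s ^ 2 = q := by rw [hs]; exact Real.sq_sqrt hq0.le
  obtain ⟨t, ht⟩ : ∃ t : ℝ, t = ((q + 1) ^ (1 / 4 : ℝ))⁻¹ := ⟨_, rfl⟩
  have hr0 : 0 < (q + 1) ^ (1 / 4 : ℝ) := Real.rpow_pos_of_pos (by linarith) _
  have ht0 : 0 < t := by rw [ht]; exact inv_pos.2 hr0
  have hr4 : ((q + 1) ^ (1 / 4 : ℝ)) ^ 4 = q + 1 := by
    rw [← Real.rpow_natCast, ← Real.rpow_mul (by linarith)]
    norm_num
  have ht4 : (q + 1) * t ^ 4 = 1 := by
    rw [ht, inv_pow, hr4]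
    exact mul_inv_cancel₀ (by linarith)
  have ht1 : t ≤ 16 / 25 := by
    by_contra h
    push Not at h
    have h1 : ((16 : ℝ) / 25) ^ 4 ≤ t ^ 4 := pow_le_pow_left₀ (by norm_num) h.le 4
    have h3 : 6 * ((16 : ℝ) / 25) ^ 4 ≤ (q + 1) * t ^ 4 :=
      mul_le_mul (by linarith) h1 (by norm_num) (by linarith)
    rw [ht4] at h3
    norm_num at h3
  have htsqrt : t ^ 2 = 1 / Real.sqrt (q + 1) := by
    have h1 : (1 / Real.sqrt (q + 1)) ^ 2 = (t ^ 2) ^ 2 := by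
      rw [div_pow, Real.sq_sqrt (by linarith), one_pow]
      have : (t ^ 2) ^ 2 = t ^ 4 := by ring
      rw [this]
      field_simp
      linarith
    exact ((pow_left_inj₀ (by positivity) (by positivity) two_ne_zero).1 h1).symm
  have htlt : t ^ 2 < 1 := by nlinarith
  obtain ⟨α, hα⟩ : ∃ α : ℝ, α = Real.sqrt (1 - t ^ 2) := ⟨_, rfl⟩
  have hα0 : 0 < α := by rw [hα]; exact Real.sqrt_pos.2 (by linarith)
  have hα2 : α ^ 2 = 1 - t ^ 2 := by rw [hα]; exact Real.sq_sqrt (by linarith)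
  obtain ⟨g, hg⟩ : ∃ g : ℝ, g = α / s := ⟨_, rfl⟩
  have hg0 : 0 < g := by rw [hg]; exact div_pos hα0 hs0
  obtain ⟨β, hβ⟩ : ∃ β : ℝ, β = Real.sqrt (g ^ 2 + t ^ 2) - g := ⟨_, rfl⟩
  have hβ0 : 0 < β := by
    rw [hβ, sub_pos]
    apply Real.lt_sqrt_of_sq_lt
    have := pow_pos ht0 2
    linarith
  have hβ2 : 2 * g * β + β ^ 2 = t ^ 2 := by
    have h1 : (β + g) ^ 2 = g ^ 2 + t ^ 2 := by
      rw [hβ, sub_add_cancel]
      exact Real.sq_sqrt (by positivity)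
    linarith [h1, (by ring : (β + g) ^ 2 = β ^ 2 + 2 * g * β + g ^ 2)]
  have hβt : β ≤ t := by
    apply le_of_sq_le_sq _ ht0.le
    have := mul_pos (mul_pos two_pos hg0) hβ0
    linarith
  have hnorm : ∑ k, ‖fid ψ g β k‖ ^ 2 = 1 := by
    rw [norm_fid, hβ2, ← hq, hg, div_pow, hs2, hα2]
    field_simp
    ring
  have hax : ∀ b : F, b ≠ 0 → ‖amb ψ (fid ψ g β) 0 b‖ = t ^ 2 := by
    intro b hb
    rw [amb_zero hψ g β hb, hβ2, Complex.norm_real, Real.norm_eq_abs,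
      abs_of_nonneg (sq_nonneg t)]
  have hall : ∀ a b : F, (a, b) ≠ 0 →
      |(q + 1) * ‖amb ψ (fid ψ g β) a b‖ ^ 2 - 1| ≤ 6 * t := by
    intro a b hab
    by_cases ha : a = 0
    · subst ha
      have hb : b ≠ 0 := by
        rintro rfl
        exact hab rfl
      rw [hax b hb]
      have : (q + 1) * (t ^ 2) ^ 2 - 1 = 0 := by
        rw [← pow_mul, ht4]
        ring
      rw [this, abs_zero]
      linarith
    · have h := amb_off hψ h2 h3 hg0.le hβ0.le ha b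
      rw [← hq, ← hs, hg] at h
      rw [hg]
      exact num ht0 ht1 ht4 hs0 hs2 hα0.le hα2 hβ0.le hβt (norm_nonneg _) h
  have h6t : 6 * t = 6 / (q + 1) ^ (1 / 4 : ℝ) := by rw [ht]; ring
  rw [← hq, ← hs]
  refine ⟨α, β, orb ψ (fid ψ g β), hα0, hβ0, ?_, ?_, ?_, ?_, ?_, ?_⟩
  · intro a b k
    unfold orb fid
    simp only [sub_eq_zero, hg]
  · intro i
    have h := norm_orb (ψ := ψ) (fid ψ g β) i
    rw [hnorm] at h
    have := norm_nonneg (orb ψ (fid ψ g β) i)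
    nlinarith
  · intro w
    rw [tight hψ, hnorm, mul_one, hq]
  · intro i j hij h1
    rw [inner_orb, h1, sub_self, hax, htsqrt]
    intro h
    exact hij (Prod.ext h1 (sub_eq_zero.1 h).symm)
  · intro i j hij
    rw [inner_orb, ← h6t]
    apply hall
    intro h
    rw [Prod.mk_eq_zero] at h
    exact hij (Prod.ext (sub_eq_zero.1 h.1).symm (sub_eq_zero.1 h.2).symm)
  · intro B hB
    rw [second hψ]
    have e1 : ∑ k, ∑ l, ‖B k l‖ ^ 2 =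
        1 / q * ∑ m, ∑ b, ‖∑ k, ψ (-b * k) * B k (k + m)‖ ^ 2 := by
      rw [sum_sq_decomp B hψ, ← hq]
      field_simp
    rw [e1]
    have e2 : (q + 1) / q * ∑ m, ∑ b, ‖amb ψ (fid ψ g β) (-m) b‖ ^ 2 *
          ‖∑ k, ψ (-b * k) * B k (k + m)‖ ^ 2 -
        1 / q * ∑ m, ∑ b, ‖∑ k, ψ (-b * k) * B k (k + m)‖ ^ 2 =
        1 / q * ∑ m, ∑ b, ((q + 1) * ‖amb ψ (fid ψ g β) (-m) b‖ ^ 2 - 1) *
          ‖∑ k, ψ (-b * k) * B k (k + m)‖ ^ 2 := by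
      simp only [Finset.mul_sum, ← Finset.sum_sub_distrib]
      refine Finset.sum_congr rfl fun m _ => Finset.sum_congr rfl fun b _ => ?_
      ring
    rw [e2, abs_mul, abs_of_pos (one_div_pos.2 hq0), ← h6t]
    have e3 : |∑ m, ∑ b, ((q + 1) * ‖amb ψ (fid ψ g β) (-m) b‖ ^ 2 - 1) *
          ‖∑ k, ψ (-b * k) * B k (k + m)‖ ^ 2| ≤
        6 * t * ∑ m, ∑ b, ‖∑ k, ψ (-b * k) * B k (k + m)‖ ^ 2 := by
      rw [Finset.mul_sum]
      refine (Finset.abs_sum_le_sum_abs _ _).trans (Finset.sum_le_sum fun m _ => ?_)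
      rw [Finset.mul_sum]
      refine (Finset.abs_sum_le_sum_abs _ _).trans (Finset.sum_le_sum fun b _ => ?_)
      rw [abs_mul, abs_of_nonneg (sq_nonneg ‖_‖)]
      by_cases h0 : (-m, b) = (0 : F × F)
      · rw [Prod.mk_eq_zero, neg_eq_zero] at h0
        obtain ⟨rfl, rfl⟩ := h0
        have : ∑ k, ψ (-0 * k) * B k (k + 0) = 0 := by
          rw [← hB]
          simp [Matrix.trace]
        rw [this]
        simp
      · exact mul_le_mul_of_nonneg_right (hall _ _ h0) (sq_nonneg _)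
    calc 1 / q * |∑ m, ∑ b, ((q + 1) * ‖amb ψ (fid ψ g β) (-m) b‖ ^ 2 - 1) *
          ‖∑ k, ψ (-b * k) * B k (k + m)‖ ^ 2| ≤
          1 / q * (6 * t * ∑ m, ∑ b, ‖∑ k, ψ (-b * k) * B k (k + m)‖ ^ 2) :=
          mul_le_mul_of_nonneg_left e3 (one_div_pos.2 hq0).le
      _ = 6 * t * (1 / q * ∑ m, ∑ b, ‖∑ k, ψ (-b * k) * B k (k + m)‖ ^ 2) := by ring

end Pool.Agent.L5helper45.WH
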